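import Pool.Agent.H941.F4

/-!
Problem MP_7362d9_pr, partial result.  With probability tending to one there is a path of linear
length across the annulus all of whose vertices, except an `exp (-c sqrt (log N))` fraction,
have height at most `-c (log N)^(3/4)`.
-/

open MeasureTheory ProbabilityTheory H941

theorem Pool.Agent.Results.MP_7362d9_pr.AlmostOpenCrossing.result :
    ∃ C c : ℝ, 0 < C ∧ 0 < c ∧ ∀ α β : ℝ, 0 < α → α < β → β < 1 →
    ∃ N₀ : ℕ, ∀ N : ℕ, N₀ ≤ N → ∀ (Ω : Type*) [MeasurableSpace Ω] (P : Measure Ω)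
      (η : ℤ × ℤ → Ω → ℝ), IsDGFF N η P →
      P {ω | ¬ ∃ (u v : ℤ × ℤ) (p : grid.Walk u v),
          u ∈ innerBdry ⌊α * (N : ℝ)⌋₊ ∧ v ∈ innerBdry ⌊β * (N : ℝ)⌋₊ ∧
          (∀ w ∈ p.support, w ∈ box N) ∧ (p.support.length : ℝ) ≤ C * N ∧
          ((p.support.filter
            (fun w => decide (-(c * (Real.log N) ^ (3 / 4 : ℝ)) < η w ω))).length : ℝ) ≤
              N * Real.exp (-(c * Real.sqrt (Real.log N)))} ≤
        ENNReal.ofReal (Real.exp (-(c * Real.sqrt (Real.log N)))) :=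
  H941.almost_open_crossing
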