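import Pool.Agent.H941.C.full_crossing

/-!
Problem MP_7362d9_pr, question Q1.  For all `0 < α < β < 1` and every real level `lam` there are constants
`C` and `c > 0` such that the probability that the annulus between `∂V_{αN}` and `∂V_{βN}` is crossed by a
nearest-neighbour path of at most `C N` vertices, all of height at most `lam`, is at least `c`: for every `N` with
`⌊α N⌋ ≥ 1` if `lam ≥ 0`, and for every `N ≥ N₀` if `lam < 0`.
-/

open MeasureTheory ProbabilityTheory H941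

theorem Pool.Agent.Results.MP_7362d9_pr.FullLinearCrossing.result :
    ∀ α β : ℝ, 0 < α → α < β → β < 1 → ∀ lam : ℝ,
    ∃ (C c : ℝ) (N₀ : ℕ), 0 < C ∧ 0 < c ∧ ∀ N : ℕ, 1 ≤ ⌊α * (N : ℝ)⌋₊ → (0 ≤ lam ∨ N₀ ≤ N) →
      ∀ (Ω : Type*) [MeasurableSpace Ω] (P : Measure Ω) (η : ℤ × ℤ → Ω → ℝ), IsDGFF N η P →
        ENNReal.ofReal c ≤
          P {ω | ∃ (u v : ℤ × ℤ) (p : grid.Walk u v),
            u ∈ innerBdry ⌊α * (N : ℝ)⌋₊ ∧ v ∈ innerBdry ⌊β * (N : ℝ)⌋₊ ∧
            (∀ w ∈ p.support, w ∈ box N ∧ η w ω ≤ lam) ∧ (p.support.length : ℝ) ≤ C * N} := by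
  intro α β hα hαβ hβ lam
  exact H941.full_crossing α β hα hαβ hβ lam
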