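import Pool.Agent.H941.B.linear_crossing

/-!
Problem MP_7362d9_pr, partial result.  With probability tending to one there is a path of linear
length across the annulus all of whose vertices have height at most `(log log N)^2`.
-/

open MeasureTheory ProbabilityTheory H941

theorem Pool.Agent.Results.MP_7362d9_pr.LinearSlowLevel.result :
    ∀ α β : ℝ, 0 < α → α < β → β < 1 →
    ∃ N₀ : ℕ, ∀ N : ℕ, N₀ ≤ N → ∀ (Ω : Type*) [MeasurableSpace Ω] (P : Measure Ω)
      (η : ℤ × ℤ → Ω → ℝ), IsDGFF N η P →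
      P {ω | ¬ ∃ (u v : ℤ × ℤ) (p : grid.Walk u v),
          u ∈ innerBdry ⌊α * (N : ℝ)⌋₊ ∧ v ∈ innerBdry ⌊β * (N : ℝ)⌋₊ ∧
          (∀ w ∈ p.support, w ∈ box N ∧ η w ω ≤ (Real.log (Real.log N)) ^ 2) ∧
          (p.support.length : ℝ) ≤ 5 * N} ≤
        ENNReal.ofReal (1 / Real.log N) := by
  intro α β hα hαβ hβ
  exact H941.linear_crossing α β hα hαβ hβ
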